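import Mathlib

/-!
# An isometric colouring of the pairs of reals without uncountable homogeneous sets

Q1 asks whether there is an isometric colouring `χ : [ℝ]² → {0, 1}` all of whose homogeneous sets
are countable. The answer is yes.

Fix a Hamel basis `b` of `ℝ` over `ℚ` and a well-order of the basis. For `t > 0` let `f t = 0` if
the coordinate of `t` at the largest element of its support is positive, and `f t = 1` otherwise;
let `χ {x, y} = f |x - y|`. Every uncountable set of finitely supported functions has an uncountable
subset which is, after an injective map `m` to the basis, such that the last coordinate of `y - x` is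
one and the same number `v` whenever `m x < m y` (induction on the size of the supports). If `χ` were
constant on an uncountable set `X` then an uncountable subset of `X` would be well-ordered or
dually well-ordered in `ℝ`.

Not handed in: the answer follows in a few lines from P. Komjáth, A certain 2-coloring of the reals,
Real Anal. Exchange 41 (2016) 227-231 (a Delta-system of the supports over a Hamel basis).
-/

set_option autoImplicit false

open Set Topology

namespace Pool.Agent.Q213.Withdrawn.IsometricColoring

section Lead

variable {ι : Type*} [LinearOrder ι]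

/-- The value at the largest element of the support (`0` for the zero function). -/
noncomputable def lead (g : ι →₀ ℚ) : ℚ :=
  if h : g.support.Nonempty then g (g.support.max' h) else 0

theorem lead_eq (g : ι →₀ ℚ) (a : ι) (ha : g a ≠ 0) (h : ∀ b, a < b → g b = 0) :
    lead g = g a := by
  have hmem : a ∈ g.support := Finsupp.mem_support_iff.2 ha
  have hne : g.support.Nonempty := ⟨a, hmem⟩
  have hmax : g.support.max' hne = a := by
    apply le_antisymm
    · by_contra hlt
      push Not at hlt
      have := g.support.max'_mem hne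
      exact (Finsupp.mem_support_iff.1 this) (h _ hlt)
    · exact Finset.le_max' _ _ hmem
  unfold lead
  rw [dif_pos hne, hmax]

theorem lead_ne_zero (g : ι →₀ ℚ) (hg : g ≠ 0) : lead g ≠ 0 := by
  have hne : g.support.Nonempty := Finsupp.support_nonempty_iff.2 hg
  unfold lead
  rw [dif_pos hne]
  exact Finsupp.mem_support_iff.1 (g.support.max'_mem hne)

theorem lead_neg (g : ι →₀ ℚ) : lead (-g) = - lead g := by
  unfold lead
  by_cases h : g.support.Nonempty
  · have h' : (-g).support.Nonempty := by rw [Finsupp.support_neg]; exact h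
    rw [dif_pos h, dif_pos h']
    simp [Finsupp.support_neg]
  · have h' : ¬ (-g).support.Nonempty := by rw [Finsupp.support_neg]; exact h
    rw [dif_neg h, dif_neg h', neg_zero]

/-- Every uncountable set of finitely supported functions with supports of size `n` has an
uncountable subset on which the difference has a constant leading coefficient, with respect to
an injective map to the index set. -/
theorem exists_thin (n : ℕ) : ∀ X : Set (ι →₀ ℚ), ¬ X.Countable → (∀ x ∈ X, x.support.card = n) →
    ∃ Y ⊆ X, ¬ Y.Countable ∧ ∃ m : (ι →₀ ℚ) → ι, InjOn m Y ∧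
      ∃ v : ℚ, ∀ x ∈ Y, ∀ y ∈ Y, m x < m y → lead (y - x) = v := by
  classical
  induction n with
  | zero =>
    intro X hX hc
    exfalso
    apply hX
    apply (countable_singleton (0 : ι →₀ ℚ)).mono
    intro x hx
    have := hc x hx
    rw [Finset.card_eq_zero, Finsupp.support_eq_empty] at this
    exact this
  | succ n ih =>
    intro X hX hc
    have hne : ∀ x ∈ X, x.support.Nonempty := by
      intro x hx
      rw [← Finset.card_pos, hc x hx]
      exact Nat.succ_pos n
    have hex : ∃ m : (ι →₀ ℚ) → ι, ∀ x ∈ X, x (m x) ≠ 0 ∧ ∀ b, m x < b → x b = 0 := by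
      have : Nonempty ι := by
        by_contra hι
        rw [not_nonempty_iff] at hι
        apply hX
        exact (Set.to_countable X)
      have : ∀ x : ι →₀ ℚ, ∃ a : ι, x ∈ X → x a ≠ 0 ∧ ∀ b, a < b → x b = 0 := by
        intro x
        by_cases hx : x ∈ X
        · refine ⟨x.support.max' (hne x hx), fun _ => ⟨?_, ?_⟩⟩
          · exact Finsupp.mem_support_iff.1 (x.support.max'_mem (hne x hx))
          · intro b hb
            by_contra hb0
            exact absurd (x.support.le_max' b (Finsupp.mem_support_iff.2 hb0)) (not_le.2 hb)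
        · exact ⟨Classical.arbitrary ι, fun h => absurd h hx⟩
      choose m hm using this
      exact ⟨m, fun x hx => hm x hx⟩
    obtain ⟨m, hm⟩ := hex
    by_cases hfib : ∃ a : ι, ∃ q : ℚ, ¬ {x ∈ X | m x = a ∧ x a = q}.Countable
    · obtain ⟨a, q, hunc⟩ := hfib
      set X₁ := {x ∈ X | m x = a ∧ x a = q} with hX₁
      have hq : q ≠ 0 := by
        rintro rfl
        apply hunc
        have : X₁ = ∅ := by
          ext x
          simp only [hX₁, mem_ofPred_eq, mem_empty_iff_false, iff_false]
          rintro ⟨hx, rfl, h0⟩
          exact (hm x hx).1 h0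
        rw [this]
        exact countable_empty
      set T : (ι →₀ ℚ) → (ι →₀ ℚ) := fun x => x - Finsupp.single a q with hT
      have hTinj : Function.Injective T := fun x y h => sub_left_injective h
      have hunc' : ¬ (T '' X₁).Countable := by
        intro h
        exact hunc ((countable_of_injective_of_countable_image hTinj.injOn h))
      have hcard : ∀ x ∈ T '' X₁, x.support.card = n := by
        rintro _ ⟨x, hx, rfl⟩
        have hsup : (T x).support = x.support.erase a := by
          ext b
          rw [Finset.mem_erase, Finsupp.mem_support_iff, Finsupp.mem_support_iff]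
          simp only [hT, Finsupp.sub_apply]
          by_cases hb : b = a
          · subst hb
            rw [Finsupp.single_eq_same, hx.2.2]
            simp
          · rw [Finsupp.single_eq_of_ne hb]
            simp [hb]
        rw [hsup, Finset.card_erase_of_mem, hc x hx.1]
        · rfl
        · rw [Finsupp.mem_support_iff, hx.2.2]
          exact hq
      obtain ⟨Y, hYX, hYunc, m', hm'inj, v, hv⟩ := ih (T '' X₁) hunc' hcard
      refine ⟨{x ∈ X₁ | T x ∈ Y}, fun x hx => hx.1.1, ?_, fun x => m' (T x), ?_, v, ?_⟩
      · intro h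
        apply hYunc
        apply (h.image T).mono
        intro y hy
        obtain ⟨x, hx, rfl⟩ := hYX hy
        exact ⟨x, ⟨hx, hy⟩, rfl⟩
      · intro x hx y hy hxy
        exact hTinj (hm'inj hx.2 hy.2 hxy)
      · intro x hx y hy hxy
        have := hv (T x) hx.2 (T y) hy.2 hxy
        simpa [hT] using this
    · push Not at hfib
      -- the image of `X` in `ι × ℚ` is uncountable
      have himg : ¬ ((fun x : ι →₀ ℚ => (m x, x (m x))) '' X).Countable := by
        intro h
        apply hX
        have hcov : X ⊆ ⋃ p ∈ ((fun x : ι →₀ ℚ => (m x, x (m x))) '' X),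
            {x ∈ X | m x = p.1 ∧ x p.1 = p.2} := by
          intro x hx
          simp only [mem_iUnion]
          exact ⟨(m x, x (m x)), ⟨x, hx, rfl⟩, hx, rfl, rfl⟩
        exact (h.biUnion fun p _ => hfib p.1 p.2).mono hcov
      have hq : ∃ q : ℚ, ¬ {a : ι | ∃ x ∈ X, m x = a ∧ x a = q}.Countable := by
        by_contra hcon
        push Not at hcon
        apply himg
        have hcov : ((fun x : ι →₀ ℚ => (m x, x (m x))) '' X) ⊆
            ⋃ q : ℚ, (fun a => (a, q)) '' {a : ι | ∃ x ∈ X, m x = a ∧ x a = q} := by
          rintro _ ⟨x, hx, rfl⟩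
          simp only [mem_iUnion]
          exact ⟨x (m x), m x, ⟨x, hx, rfl, rfl⟩, rfl⟩
        exact (countable_iUnion fun q => (hcon q).image _).mono hcov
      obtain ⟨q, hq⟩ := hq
      have hch : ∀ a : ι, ∃ x : ι →₀ ℚ, a ∈ {a : ι | ∃ x ∈ X, m x = a ∧ x a = q} →
          x ∈ X ∧ m x = a ∧ x a = q := by
        intro a
        by_cases ha : a ∈ {a : ι | ∃ x ∈ X, m x = a ∧ x a = q}
        · obtain ⟨x, hx, h1, h2⟩ := ha
          exact ⟨x, fun _ => ⟨hx, h1, h2⟩⟩
        · exact ⟨0, fun h => absurd h ha⟩
      choose c hcc using hch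
      refine ⟨c '' {a : ι | ∃ x ∈ X, m x = a ∧ x a = q}, ?_, ?_, m, ?_, q, ?_⟩
      · rintro _ ⟨a, ha, rfl⟩
        exact (hcc a ha).1
      · intro h
        apply hq
        apply countable_of_injective_of_countable_image (f := c) _ h
        intro a ha b hb hab
        rw [← (hcc a ha).2.1, ← (hcc b hb).2.1, hab]
      · rintro _ ⟨a, ha, rfl⟩ _ ⟨b, hb, rfl⟩ hab
        rw [(hcc a ha).2.1, (hcc b hb).2.1] at hab
        rw [hab]
      · rintro _ ⟨a, ha, rfl⟩ _ ⟨b, hb, rfl⟩ hab
        obtain ⟨haX, ham, haq⟩ := hcc a ha
        obtain ⟨hbX, hbm, hbq⟩ := hcc b hb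
        rw [ham, hbm] at hab
        have h1 : c a b = 0 := by
          apply (hm _ haX).2
          rw [ham]
          exact hab
        have h2 : (c b - c a) b = q := by
          rw [Finsupp.sub_apply, h1, hbq, sub_zero]
        rw [lead_eq (c b - c a) b, h2]
        · rw [h2, ← hbq]
          have := (hm _ hbX).1
          rwa [hbm] at this
        · intro d hd
          rw [Finsupp.sub_apply, (hm _ hbX).2 d (by rw [hbm]; exact hd),
            (hm _ haX).2 d (by rw [ham]; exact hab.trans hd), sub_zero]

end Lead

/-- A set of reals with an injective order-preserving map to a well-ordered set is countable. -/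
theorem countable_of_mono {ι : Type*} [LinearOrder ι] [WellFoundedLT ι] (Y : Set ℝ) (m : ℝ → ι)
    (hinj : InjOn m Y) (hm : ∀ x ∈ Y, ∀ y ∈ Y, m x < m y → x < y) : Y.Countable := by
  apply (countable_setOfPred_isolated_right_within (α := ℝ) (s := Y)).mono
  intro x hx
  refine ⟨hx, ?_⟩
  rw [← Filter.empty_mem_iff_bot, mem_nhdsWithin_iff_exists_mem_nhds_inter]
  by_cases hmax : ∃ y ∈ Y, m x < m y
  · have hne : (m '' {y ∈ Y | m x < m y}).Nonempty := by
      obtain ⟨y, hy, hxy⟩ := hmax
      exact ⟨m y, y, ⟨hy, hxy⟩, rfl⟩
    obtain ⟨_, ⟨y, ⟨hy, hxy⟩, rfl⟩, hmin⟩ := WellFounded.has_min (wellFounded_lt (α := ι)) _ hne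
    refine ⟨Iio y, Iio_mem_nhds (hm x hx y hy hxy), ?_⟩
    rintro z ⟨hzy, hzY, hxz⟩
    have hzy' : z < y := hzy
    have hxz' : x < z := hxz
    have h1 : m x < m z := by
      rcases lt_trichotomy (m x) (m z) with h | h | h
      · exact h
      · exact absurd (hinj hx hzY h) hxz'.ne
      · exact absurd (hm z hzY x hx h) (not_lt.2 hxz'.le)
    have h2 : ¬ m z < m y := hmin _ ⟨z, ⟨hzY, h1⟩, rfl⟩
    rcases lt_trichotomy (m z) (m y) with h | h | h
    · exact absurd h h2
    · exact absurd (hinj hzY hy h) hzy'.ne
    · exact absurd (hm y hy z hzY h) (not_lt.2 hzy'.le)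
  · push Not at hmax
    refine ⟨univ, Filter.univ_mem, ?_⟩
    rintro z ⟨-, hzY, hxz⟩
    have hxz' : x < z := hxz
    rcases lt_or_eq_of_le (hmax z hzY) with h | h
    · exact absurd (hm z hzY x hx h) (not_lt.2 hxz'.le)
    · exact absurd (hinj hzY hx h) hxz'.ne'

/-- The colouring from a Hamel basis indexed by a well-ordered set. -/
theorem exists_of_basis {ι : Type*} [LinearOrder ι] [WellFoundedLT ι] (b : Module.Basis ι ℚ ℝ) :
    ∃ f : ℝ → Fin 2, ∀ X : Set ℝ,
      (∃ i : Fin 2, ∀ x ∈ X, ∀ y ∈ X, x ≠ y → f (dist x y) = i) → X.Countable := by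
  classical
  let f : ℝ → Fin 2 := fun t => if 0 < lead (b.repr t) then 0 else 1
  refine ⟨f, ?_⟩
  rintro X ⟨i, hi⟩
  by_contra hX
  -- supports of constant size
  have hn : ∃ n : ℕ, ¬ {x ∈ X | (b.repr x).support.card = n}.Countable := by
    by_contra hcon
    push Not at hcon
    apply hX
    have : X ⊆ ⋃ n : ℕ, {x ∈ X | (b.repr x).support.card = n} := by
      intro x hx
      simp only [mem_iUnion]
      exact ⟨_, hx, rfl⟩
    exact (countable_iUnion hcon).mono this
  obtain ⟨n, hn⟩ := hn
  have hinj : Function.Injective (fun x : ℝ => b.repr x) := b.repr.injective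
  have hunc : ¬ ((fun x : ℝ => b.repr x) '' {x ∈ X | (b.repr x).support.card = n}).Countable := by
    intro h
    exact hn (countable_of_injective_of_countable_image hinj.injOn h)
  obtain ⟨Y, hYX, hY, m, hminj, v, hv⟩ := exists_thin n _ hunc (by
    rintro _ ⟨x, hx, rfl⟩
    exact hx.2)
  -- back to the reals
  set Z : Set ℝ := {x ∈ X | b.repr x ∈ Y} with hZ
  have hZunc : ¬ Z.Countable := by
    intro h
    apply hY
    apply (h.image fun x : ℝ => b.repr x).mono
    intro y hy
    obtain ⟨x, hx, rfl⟩ := hYX hy
    exact ⟨x, ⟨hx.1, hy⟩, rfl⟩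
  have hZinj : InjOn (fun x : ℝ => m (b.repr x)) Z := by
    intro x hx y hy hxy
    exact hinj (hminj hx.2 hy.2 hxy)
  have hlead : ∀ x ∈ Z, ∀ y ∈ Z, m (b.repr x) < m (b.repr y) → lead (b.repr (y - x)) = v := by
    intro x hx y hy hxy
    rw [map_sub]
    exact hv _ hx.2 _ hy.2 hxy
  have hv0 : ∀ x ∈ Z, ∀ y ∈ Z, m (b.repr x) < m (b.repr y) → v ≠ 0 := by
    intro x hx y hy hxy
    rw [← hlead x hx y hy hxy]
    apply lead_ne_zero
    intro h0
    have : y - x = 0 := by
      apply b.repr.injective
      rw [h0, map_zero]
    rw [sub_eq_zero] at this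
    subst this
    exact lt_irrefl _ hxy
  -- the sign of the leading coefficient of `y - x` for `x < y` is constant
  have hsign : (∀ x ∈ Z, ∀ y ∈ Z, x < y → 0 < lead (b.repr (y - x))) ∨
      (∀ x ∈ Z, ∀ y ∈ Z, x < y → lead (b.repr (y - x)) < 0) := by
    have hcol : ∀ x ∈ Z, ∀ y ∈ Z, x < y →
        (if 0 < lead (b.repr (y - x)) then (0 : Fin 2) else 1) = i := by
      intro x hx y hy hxy
      have := hi x hx.1 y hy.1 hxy.ne
      rw [Real.dist_eq, abs_sub_comm, abs_of_pos (sub_pos.2 hxy)] at this
      exact this
    by_cases h0 : i = 0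
    · left
      intro x hx y hy hxy
      by_contra hneg
      have := hcol x hx y hy hxy
      rw [if_neg hneg, h0] at this
      exact absurd this (by decide)
    · right
      intro x hx y hy hxy
      have := hcol x hx y hy hxy
      have hnp : ¬ 0 < lead (b.repr (y - x)) := by
        intro hp
        rw [if_pos hp] at this
        exact h0 this.symm
      have hne : lead (b.repr (y - x)) ≠ 0 := by
        apply lead_ne_zero
        intro h0
        have : y - x = 0 := by
          apply b.repr.injective
          rw [h0, map_zero]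
        exact hxy.ne' (sub_eq_zero.1 this)
      exact lt_of_le_of_ne (not_lt.1 hnp) hne
  have hflip : ∀ x y : ℝ, lead (b.repr (x - y)) = - lead (b.repr (y - x)) := by
    intro x y
    rw [← lead_neg, ← map_neg, neg_sub]
  have hm : (∀ x ∈ Z, ∀ y ∈ Z, m (b.repr x) < m (b.repr y) → x < y) ∨
      (∀ x ∈ Z, ∀ y ∈ Z, m (b.repr x) < m (b.repr y) → y < x) := by
    rcases lt_trichotomy v 0 with hvneg | hvz | hvpos
    · rcases hsign with hs | hs
      · right
        intro x hx y hy hxy
        have hl := hlead x hx y hy hxy
        rcases lt_trichotomy x y with h | h | h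
        · have := hs x hx y hy h
          linarith
        · subst h
          exact absurd hxy (lt_irrefl _)
        · exact h
      · left
        intro x hx y hy hxy
        have hl := hlead x hx y hy hxy
        rcases lt_trichotomy x y with h | h | h
        · exact h
        · subst h
          exact absurd hxy (lt_irrefl _)
        · have := hs y hy x hx h
          rw [hflip] at this
          linarith
    · left
      intro x hx y hy hxy
      exact absurd hvz (hv0 x hx y hy hxy)
    · rcases hsign with hs | hs
      · left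
        intro x hx y hy hxy
        have hl := hlead x hx y hy hxy
        rcases lt_trichotomy x y with h | h | h
        · exact h
        · subst h
          exact absurd hxy (lt_irrefl _)
        · have := hs y hy x hx h
          rw [hflip] at this
          linarith
      · right
        intro x hx y hy hxy
        have hl := hlead x hx y hy hxy
        rcases lt_trichotomy x y with h | h | h
        · have := hs x hx y hy h
          linarith
        · subst h
          exact absurd hxy (lt_irrefl _)
        · exact h
  rcases hm with hm | hm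
  · exact hZunc (countable_of_mono Z (fun x => m (b.repr x)) hZinj hm)
  · apply hZunc
    have hneg : ((fun x : ℝ => -x) '' Z).Countable := by
      apply countable_of_mono _ (fun x => m (b.repr (-x)))
      · rintro _ ⟨x, hx, rfl⟩ _ ⟨y, hy, rfl⟩ hxy
        simp only [neg_neg] at hxy
        rw [hZinj hx hy hxy]
      · rintro _ ⟨x, hx, rfl⟩ _ ⟨y, hy, rfl⟩ hxy
        simp only [neg_neg] at hxy
        have := hm x hx y hy hxy
        simpa using this
    exact countable_of_injective_of_countable_image neg_injective.injOn hneg

/-- **Main theorem.** There is an isometric colouring of the pairs of reals with two colours all of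
whose homogeneous sets are countable. -/
theorem result : ∃ f : ℝ → Fin 2, ∀ X : Set ℝ,
    (∃ i : Fin 2, ∀ x ∈ X, ∀ y ∈ X, x ≠ y → f (dist x y) = i) → X.Countable := by
  obtain ⟨ι, ⟨b⟩⟩ : ∃ ι : Type, Nonempty (Module.Basis ι ℚ ℝ) :=
    ⟨_, ⟨Module.Basis.ofVectorSpace ℚ ℝ⟩⟩
  obtain ⟨hlin, hwf⟩ := exists_wellFoundedLT ι
  exact exists_of_basis b

end Pool.Agent.Q213.Withdrawn.IsometricColoring
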